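import Pool.Agent.H97.K2.PTI

/-!
# Foreign information along a nested chain of labels

`D q` (or `E q`) is a nested chain of labels and `Y` is a variable which does not depend on `q`
(exact times, clusters, flags). The information which the blocks of the chain share with `Y` is
summable in `q` (`qf_sum`). Pointwise form with a maximal inequality over all lengths: `qav`.
Transfer of a certificate, a pointwise bound of the conditional probability of a block `x` given
`φ`, to the finer label `(φ, Y)`: `qav_cert`.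
-/

set_option autoImplicit false

namespace Pool.H54.QF

open Finset Real
open Pool.Agent.H49.Ent Pool.Agent.H32.Dense Pool.STK Pool.KAF Pool.KAL

section basic

variable {Ω S T U V : Type} [Fintype Ω] {p : Ω → ℝ}

/-- Conditional probability, at the place `ω`, of the value of `X` given the value of `W`. -/
noncomputable def cp (p : Ω → ℝ) (X : Ω → S) (W : Ω → T) (ω : Ω) : ℝ :=
  Pool.Agent.H49.Ent.law p (fun o => (X o, W o)) (X ω, W ω) /
    Pool.Agent.H49.Ent.law p W (W ω)

theorem cp_eq (p : Ω → ℝ) (X : Ω → S) (W : Ω → T) (ω : Ω) :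
    cp p X W ω = Pool.Agent.H49.Ent.law (Pool.Agent.H49.Ent.cond p W (W ω)) X (X ω) := by
  rw [law_cond]
  rfl

theorem cp_pos (hp : ∀ ω, 0 ≤ p ω) (X : Ω → S) (W : Ω → T) {ω : Ω} (hω : 0 < p ω) :
    0 < cp p X W ω :=
  div_pos (law_pos hp (fun o => (X o, W o)) hω) (law_pos hp W hω)

theorem cp_le_one (hp : ∀ ω, 0 ≤ p ω) (X : Ω → S) (W : Ω → T) {ω : Ω} (hω : 0 < p ω) :
    cp p X W ω ≤ 1 := by
  unfold cp
  rw [div_le_one (law_pos hp _ hω)]
  exact law_mono_of_det hp (X := fun o => (X o, W o)) (Y := W) (fun ω ω' _ _ h =>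
    (Prod.ext_iff.mp h).2) hω

/-- The conditional entropy is the mean of the logarithm. -/
theorem CH_eq (hp : ∀ ω, 0 ≤ p ω) (X : Ω → S) (W : Ω → T) :
    CH p X W = Ex p (fun ω => -Real.log (cp p X W ω)) :=
  CH_eq_neg_sum hp X W

open Classical in
theorem pr_eq (p : Ω → ℝ) (E : Set Ω) : Pr p E = ∑ ω, if ω ∈ E then p ω else 0 := by
  unfold Pr Pool.Agent.H49.Ent.law
  refine Finset.sum_congr rfl fun ω _ => ?_
  by_cases h : ω ∈ E <;> simp [h]

theorem pr_mono (hp : ∀ ω, 0 ≤ p ω) {E F : Set Ω} (h : ∀ ω, 0 < p ω → ω ∈ E → ω ∈ F) :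
    Pr p E ≤ Pr p F := by
  classical
  rw [pr_eq, pr_eq]
  refine Finset.sum_le_sum fun ω _ => ?_
  rcases (hp ω).eq_or_lt with h0 | h0
  · simp [← h0]
  by_cases h1 : ω ∈ E
  · rw [if_pos h1, if_pos (h ω h0 h1)]
  · rw [if_neg h1]
    split_ifs
    exacts [h0.le, le_rfl]

theorem pr_union (hp : ∀ ω, 0 ≤ p ω) (E F : Set Ω) : Pr p (E ∪ F) ≤ Pr p E + Pr p F := by
  classical
  rw [pr_eq, pr_eq, pr_eq, ← Finset.sum_add_distrib]
  refine Finset.sum_le_sum fun ω _ => ?_
  have := hp ω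
  by_cases h1 : ω ∈ E
  · by_cases h2 : ω ∈ F
    · simp [h1, h2, this]
    · simp [h1, h2]
  · by_cases h2 : ω ∈ F
    · simp [h1, h2]
    · simp [h1, h2]

theorem pr_biUnion {ι : Type} (hp : ∀ ω, 0 ≤ p ω) (s : Finset ι) (E : ι → Set Ω) :
    Pr p {ω | ∃ i ∈ s, ω ∈ E i} ≤ ∑ i ∈ s, Pr p (E i) := by
  classical
  simp_rw [pr_eq]
  rw [Finset.sum_comm]
  refine Finset.sum_le_sum fun ω _ => ?_
  have h0 : ∀ i ∈ s, 0 ≤ (if ω ∈ E i then p ω else 0) := fun i _ => by
    split_ifs
    exacts [hp ω, le_rfl]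
  split_ifs with h
  · obtain ⟨i, hi, hE⟩ := h
    have := Finset.single_le_sum h0 hi
    rwa [if_pos hE] at this
  · exact Finset.sum_nonneg h0

/-- Markov's inequality. -/
theorem markov (hp : ∀ ω, 0 ≤ p ω) {g : Ω → ℝ} (hg : ∀ ω, 0 < p ω → 0 ≤ g ω) {t : ℝ}
    (ht : 0 < t) : Pr p {ω | t < g ω} ≤ Ex p g / t := by
  classical
  rw [le_div_iff₀ ht, pr_eq, Ex, Finset.sum_mul]
  refine Finset.sum_le_sum fun ω _ => ?_
  rcases (hp ω).eq_or_lt with h0 | h0
  · rw [← h0]
    simp
  · split_ifs with h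
    · exact mul_le_mul_of_nonneg_left (le_of_lt h) h0.le
    · have := mul_nonneg h0.le (hg ω h0)
      linarith

/-- The ratio of the conditional probability given a coarse label to the one given a fine label
has mean at most one. -/
theorem ratio_le (hp : IsLaw p) (Y : Ω → S) {F : Ω → T} {C : Ω → U} (h : Det p F C) :
    Ex p (fun ω => cp p Y C ω / cp p Y F ω) ≤ 1 := by
  have h1 := Pool.KX.PTI.lr_step hp.nonneg (S := F) (a := C) (a' := fun o => (Y o, C o))
    (s' := fun o => (Y o, F o)) h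
    (fun ω ω' _ _ hh => by
      simp only [Prod.mk.injEq] at hh ⊢
      exact ⟨hh.1.1, hh.2⟩)
    (fun ω ω' _ _ hh => (Prod.ext_iff.mp hh).2) (f := fun _ => 1) (fun _ => zero_le_one)
    (fun _ _ _ _ _ => rfl)
  rw [Ex_const hp.sum_one] at h1
  refine le_trans (le_of_eq ?_) h1
  unfold Ex
  refine Finset.sum_congr rfl fun ω _ => ?_
  have e1 : cp p Y C ω / cp p Y F ω = 1 * (Pool.Agent.H49.Ent.law p F (F ω) *
      Pool.Agent.H49.Ent.law p (fun o => (Y o, C o)) (Y ω, C ω) /
      (Pool.Agent.H49.Ent.law p (fun o => (Y o, F o)) (Y ω, F ω) *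
        Pool.Agent.H49.Ent.law p C (C ω))) := by
    unfold cp
    rw [div_div_div_eq, one_mul]
    ring
  simp only [e1]

theorem coarse_fine (hp : IsLaw p) (Y : Ω → S) {F : Ω → T} {C : Ω → U} (h : Det p F C) (s : ℝ) :
    Pr p {ω | Real.exp s * cp p Y F ω < cp p Y C ω} ≤ Real.exp (-s) := by
  have hg : ∀ ω, 0 < p ω → 0 ≤ cp p Y C ω / cp p Y F ω := fun ω hω =>
    (div_pos (cp_pos hp.nonneg Y C hω) (cp_pos hp.nonneg Y F hω)).le
  have h1 := markov hp.nonneg hg (Real.exp_pos s)
  have h2 : Pr p {ω | Real.exp s * cp p Y F ω < cp p Y C ω} ≤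
      Pr p {ω | Real.exp s < cp p Y C ω / cp p Y F ω} := by
    refine pr_mono hp.nonneg fun ω hω hE => ?_
    change Real.exp s < cp p Y C ω / cp p Y F ω
    rw [lt_div_iff₀ (cp_pos hp.nonneg Y F hω)]
    exact hE
  refine h2.trans (h1.trans ?_)
  rw [Real.exp_neg, ← one_div]
  exact div_le_div_of_nonneg_right (ratio_le hp Y h) (Real.exp_pos s).le

/-- A label with few values has a small conditional probability only rarely. -/
theorem few (hp : IsLaw p) {n : ℕ} (k : Ω → Fin n) (W : Ω → T) {t : ℝ} (ht : 0 < t) :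
    Pr p {ω | n * cp p k W ω < t} ≤ t := by
  classical
  have hg : ∀ ω, 0 < p ω → 0 ≤ 1 / cp p k W ω := fun ω hω =>
    (div_pos one_pos (cp_pos hp.nonneg k W hω)).le
  -- the mean of the inverse
  have h1 : Ex p (fun ω => 1 / cp p k W ω) ≤ n := by
    have e1 : Ex p (fun ω => 1 / cp p k W ω) = ∑ ω, p ω * (fun z : Fin n × T =>
        Pool.Agent.H49.Ent.law p W z.2 / Pool.Agent.H49.Ent.law p (fun o => (k o, W o)) z)
        ((fun o => (k o, W o)) ω) := by
      unfold Ex
      refine Finset.sum_congr rfl fun ω _ => ?_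
      have : 1 / cp p k W ω = Pool.Agent.H49.Ent.law p W (W ω) /
          Pool.Agent.H49.Ent.law p (fun o => (k o, W o)) (k ω, W ω) := by
        unfold cp
        rw [one_div_div]
      simp only [this]
    rw [e1, sum_mul_eq_sum_image p (fun o => (k o, W o)) (fun z : Fin n × T =>
      Pool.Agent.H49.Ent.law p W z.2 / Pool.Agent.H49.Ent.law p (fun o => (k o, W o)) z)]
    have h2 : ∑ z ∈ univ.image (fun o => (k o, W o)),
        Pool.Agent.H49.Ent.law p (fun o => (k o, W o)) z *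
          (Pool.Agent.H49.Ent.law p W z.2 / Pool.Agent.H49.Ent.law p (fun o => (k o, W o)) z) ≤
        ∑ z ∈ (univ : Finset (Fin n)) ×ˢ univ.image W, Pool.Agent.H49.Ent.law p W z.2 := by
      refine (Finset.sum_le_sum fun z _ => ?_).trans
        (Finset.sum_le_sum_of_subset_of_nonneg ?_ fun z _ _ => law_nonneg hp.nonneg W z.2)
      · rcases (law_nonneg hp.nonneg (fun o => (k o, W o)) z).eq_or_lt with h0 | h0
        · rw [← h0, zero_mul]
          exact law_nonneg hp.nonneg W z.2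
        · rw [mul_div_cancel₀ _ h0.ne']
      · intro z hz
        obtain ⟨ω, _, rfl⟩ := Finset.mem_image.mp hz
        exact Finset.mem_product.mpr ⟨Finset.mem_univ _, Finset.mem_image_of_mem _ (mem_univ ω)⟩
    refine h2.trans (le_of_eq ?_)
    have e2 : ∀ a : Fin n, ∑ y ∈ univ.image W, Pool.Agent.H49.Ent.law p W (a, y).2 = 1 := by
      intro a
      exact (sum_law p W).trans hp.sum_one
    rw [Finset.sum_product, Finset.sum_congr rfl fun a _ => e2 a]
    simp
  have h3 : Pr p {ω | n * cp p k W ω < t} ≤ Pr p {ω | n / t < 1 / cp p k W ω} := by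
    refine pr_mono hp.nonneg fun ω hω hE => ?_
    change (n : ℝ) / t < 1 / cp p k W ω
    rw [div_lt_div_iff₀ ht (cp_pos hp.nonneg k W hω), one_mul]
    exact hE
  rcases Nat.eq_zero_or_pos n with hn | hn
  · subst hn
    -- there is no place at all
    have : Pr p {ω | ((0 : ℕ) : ℝ) * cp p k W ω < t} = 0 := by
      rw [pr_eq]
      exact Finset.sum_eq_zero fun ω _ => (k ω).elim0
    rw [this]
    exact ht.le
  have hn' : (0 : ℝ) < n := by exact_mod_cast hn
  have h4 := markov hp.nonneg hg (t := (n : ℝ) / t) (by positivity)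
  refine h3.trans (h4.trans ?_)
  rw [div_div_eq_mul_div, div_le_iff₀ hn', mul_comm t]
  exact mul_le_mul_of_nonneg_right h1 ht.le

end basic

section real

/-- `q` is the starting point of a steep interval. -/
def Steep (F : ℕ → ℝ) (ε : ℝ) (N q : ℕ) : Prop :=
  ∃ L : ℕ, 0 < L ∧ q + L ≤ N ∧ ε * L < F (q + L) - F q

theorem steep_succ (F : ℕ → ℝ) (ε : ℝ) (N q : ℕ) :
    Steep F ε (N + 1) (q + 1) ↔ Steep (fun i => F (i + 1)) ε N q := by
  unfold Steep
  refine exists_congr fun L => ?_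
  have e : q + 1 + L = q + L + 1 := by omega
  rw [e]
  constructor
  · rintro ⟨h1, h2, h3⟩
    exact ⟨h1, by omega, h3⟩
  · rintro ⟨h1, h2, h3⟩
    exact ⟨h1, by omega, h3⟩

open Classical in
/-- Rising sun lemma. -/
theorem sun {ε : ℝ} : ∀ (N : ℕ) (F : ℕ → ℝ) (L : ℕ), L ≤ N →
    ε * (∑ q ∈ range N, if Steep F ε N q then (1 : ℝ) else 0) + (F L - F 0 - ε * L) ≤
      ∑ j ∈ range N, max (F (j + 1) - F j) 0 := by
  intro N
  induction N with
  | zero =>
    intro F L hL
    obtain rfl : L = 0 := by omega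
    simp
  | succ N ih =>
    intro F L hL
    have ih' := ih (fun i => F (i + 1))
    rw [Finset.sum_range_succ', Finset.sum_range_succ' (fun j => max (F (j + 1) - F j) 0)]
    have e1 : ∑ q ∈ range N, (if Steep F ε (N + 1) (q + 1) then (1 : ℝ) else 0) =
        ∑ q ∈ range N, if Steep (fun i => F (i + 1)) ε N q then (1 : ℝ) else 0 := by
      refine Finset.sum_congr rfl fun q _ => ?_
      rw [steep_succ]
    rw [e1]
    set C := ∑ q ∈ range N, if Steep (fun i => F (i + 1)) ε N q then (1 : ℝ) else 0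
    set S := ∑ j ∈ range N, max (F (j + 1 + 1) - F (j + 1)) 0
    have hm : F (0 + 1) - F 0 ≤ max (F (0 + 1) - F 0) 0 := le_max_left _ _
    have hm0 : 0 ≤ max (F (0 + 1) - F 0) 0 := le_max_right _ _
    by_cases h0 : Steep F ε (N + 1) 0
    · rw [if_pos h0]
      -- the case of a positive length
      have key : ∀ L, 0 < L → L ≤ N + 1 → ε * (C + 1) + (F L - F 0 - ε * L) ≤
          S + max (F (0 + 1) - F 0) 0 := by
        intro L h1 h2
        obtain ⟨L', rfl⟩ : ∃ L', L = L' + 1 := ⟨L - 1, by omega⟩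
        have := ih' L' (by omega)
        push_cast
        simp only [zero_add] at this hm hm0 ⊢
        linarith
      rcases Nat.eq_zero_or_pos L with hz | hz
      · subst hz
        obtain ⟨L0, h1, h2, h3⟩ := h0
        have := key L0 h1 (by omega)
        simp only [zero_add, Nat.cast_zero, mul_zero, sub_self, add_zero] at this h3 ⊢
        linarith
      · exact key L hz hL
    · rw [if_neg h0]
      have h1 := ih' 0 (by omega)
      simp only [zero_add, Nat.cast_zero, mul_zero, sub_self, add_zero] at h1 hm hm0 ⊢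
      rcases Nat.eq_zero_or_pos L with hz | hz
      · subst hz
        simp only [Nat.cast_zero, mul_zero, sub_self, add_zero]
        linarith
      · have h2 : ¬ (ε * L < F L - F 0) := fun h => h0 ⟨L, hz, by omega, by simpa using h⟩
        have h3 := not_lt.mp h2
        linarith

/-- The negative part of a logarithm. -/
theorem neg_part {x lam : ℝ} (hx : 0 < x) (hl : 0 < lam) :
    max (-Real.log x) 0 ≤ (1 + 1 / lam) * (-Real.log x) + (x - 1) / lam + lam / 2 := by
  have h1 : Real.log x ≤ x - 1 := Real.log_le_sub_one_of_pos hx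
  have h2 : (1 + 1 / lam) * (-Real.log x) + (x - 1) / lam + lam / 2 =
      -Real.log x + (x - 1 - Real.log x) / lam + lam / 2 := by
    field_simp
    ring
  rw [h2]
  have h3 : 0 ≤ (x - 1 - Real.log x) / lam := div_nonneg (by linarith) hl.le
  rcases le_total 0 (Real.log x) with h | h
  · have h4 : (Real.log x) ^ 2 / 2 ≤ x - 1 - Real.log x := by
      have := Real.quadratic_le_exp_of_nonneg h
      rw [Real.exp_log hx] at this
      linarith
    have h5 : (Real.log x) ^ 2 / 2 / lam ≤ (x - 1 - Real.log x) / lam :=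
      div_le_div_of_nonneg_right h4 hl.le
    have h6 : Real.log x ≤ (Real.log x) ^ 2 / 2 / lam + lam / 2 := by
      have h7 : 0 ≤ (Real.log x - lam) ^ 2 / (2 * lam) := by positivity
      have h8 : (Real.log x - lam) ^ 2 / (2 * lam) =
          (Real.log x) ^ 2 / 2 / lam + lam / 2 - Real.log x := by
        field_simp
        ring
      linarith
    refine max_le ?_ ?_ <;> linarith
  · refine max_le ?_ ?_
    · linarith
    · linarith

end real

section chain

variable {Ω S : Type} [Fintype Ω] {p : Ω → ℝ} {α : ℕ → Type}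

omit [Fintype Ω] in
theorem det_chain {D : ∀ q, Ω → α q} (hD : ∀ q, Det p (D (q + 1)) (D q)) {i j : ℕ} (hij : i ≤ j) :
    Det p (D j) (D i) := by
  induction j, hij using Nat.le_induction with
  | base => exact fun ω ω' _ _ h => h
  | succ j _ ih => exact fun ω ω' h1 h2 h => ih ω ω' h1 h2 (hD j ω ω' h1 h2 h)

/-- The positive part of one step. -/
theorem step_pos (hp : IsLaw p) (Y : Ω → S) {T U : Type} {F : Ω → T} {C : Ω → U} (h : Det p F C)
    {lam : ℝ} (hl : 0 < lam) :
    Ex p (fun ω => max (Real.log (cp p Y F ω) - Real.log (cp p Y C ω)) 0) ≤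
      (1 + 1 / lam) * (CH p Y C - CH p Y F) + lam / 2 := by
  have h1 : Ex p (fun ω => max (Real.log (cp p Y F ω) - Real.log (cp p Y C ω)) 0) ≤
      Ex p (fun ω => (1 + 1 / lam) * (-Real.log (cp p Y C ω) - -Real.log (cp p Y F ω)) +
        (1 / lam * (cp p Y C ω / cp p Y F ω) + (lam / 2 - 1 / lam))) := by
    refine Ex_mono hp.nonneg fun ω hω => ?_
    have hC := cp_pos hp.nonneg Y C hω
    have hF := cp_pos hp.nonneg Y F hω
    have h2 := neg_part (div_pos hC hF) hl
    rw [Real.log_div hC.ne' hF.ne'] at h2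
    have e1 : -(Real.log (cp p Y C ω) - Real.log (cp p Y F ω)) =
        Real.log (cp p Y F ω) - Real.log (cp p Y C ω) := by ring
    have e2 : -Real.log (cp p Y C ω) - -Real.log (cp p Y F ω) =
        Real.log (cp p Y F ω) - Real.log (cp p Y C ω) := by ring
    rw [e1] at h2
    rw [e2]
    refine h2.trans (le_of_eq ?_)
    ring
  refine h1.trans ?_
  rw [Ex_add, Ex_smul, Ex_sub, ← CH_eq hp.nonneg, ← CH_eq hp.nonneg, Ex_add, Ex_smul,
    Ex_const hp.sum_one]
  have h3 := ratio_le hp Y h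
  have h4 : 1 / lam * Ex p (fun ω => cp p Y C ω / cp p Y F ω) ≤ 1 / lam * 1 :=
    mul_le_mul_of_nonneg_left h3 (by positivity)
  linarith

/-- QAV. Maximal inequality over all lengths at once. -/
theorem qav (hp : IsLaw p) (D : ∀ q, Ω → α q) (Y : Ω → S) (hD : ∀ q, Det p (D (q + 1)) (D q))
    (N : ℕ) {ε lam : ℝ} (hε : 0 ≤ ε) (hl : 0 < lam) :
    ε * ∑ q ∈ range N, Pr p {ω | ∃ L : ℕ, 0 < L ∧ q + L ≤ N ∧
        Real.exp (ε * L) * cp p Y (D q) ω < cp p Y (D (q + L)) ω} ≤
      (1 + 1 / lam) * (CH p Y (D 0) - CH p Y (D N)) + N * (lam / 2) := by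
  classical
  set F : Ω → ℕ → ℝ := fun ω q => Real.log (cp p Y (D q) ω) with hF
  -- the events in terms of the logarithms
  have h1 : ∀ q, Pr p {ω | ∃ L : ℕ, 0 < L ∧ q + L ≤ N ∧
      Real.exp (ε * L) * cp p Y (D q) ω < cp p Y (D (q + L)) ω} ≤
      ∑ ω, p ω * (if Steep (F ω) ε N q then (1 : ℝ) else 0) := by
    intro q
    rw [pr_eq]
    refine Finset.sum_le_sum fun ω _ => ?_
    rcases (hp.nonneg ω).eq_or_lt with h0 | h0
    · simp [← h0]
    split_ifs with h2 h3 h3
    · rw [mul_one]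
    · exfalso
      refine h3 ?_
      obtain ⟨L, hL1, hL2, hL3⟩ := h2
      refine ⟨L, hL1, hL2, ?_⟩
      have c1 := cp_pos hp.nonneg Y (D q) h0
      have h4 := Real.log_lt_log (mul_pos (Real.exp_pos _) c1) hL3
      rw [Real.log_mul (Real.exp_pos _).ne' c1.ne', Real.log_exp] at h4
      simp only [hF]
      linarith
    · rw [mul_one]
      exact h0.le
    · rw [mul_zero]
  have h2 : ε * ∑ q ∈ range N, Pr p {ω | ∃ L : ℕ, 0 < L ∧ q + L ≤ N ∧
      Real.exp (ε * L) * cp p Y (D q) ω < cp p Y (D (q + L)) ω} ≤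
      ∑ ω, p ω * (ε * ∑ q ∈ range N, if Steep (F ω) ε N q then (1 : ℝ) else 0) := by
    refine (mul_le_mul_of_nonneg_left (Finset.sum_le_sum fun q _ => h1 q) hε).trans
      (le_of_eq ?_)
    rw [Finset.sum_comm, Finset.mul_sum]
    refine Finset.sum_congr rfl fun ω _ => ?_
    rw [← Finset.mul_sum]
    ring
  refine h2.trans ?_
  have h3 : ∑ ω, p ω * (ε * ∑ q ∈ range N, if Steep (F ω) ε N q then (1 : ℝ) else 0) ≤
      ∑ j ∈ range N, Ex p (fun ω => max (Real.log (cp p Y (D (j + 1)) ω) -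
        Real.log (cp p Y (D j) ω)) 0) := by
    unfold Ex
    rw [Finset.sum_comm]
    refine Finset.sum_le_sum fun ω _ => ?_
    rw [← Finset.mul_sum]
    refine mul_le_mul_of_nonneg_left ?_ (hp.nonneg ω)
    have := sun (ε := ε) N (F ω) 0 (Nat.zero_le _)
    simpa using this
  refine h3.trans ((Finset.sum_le_sum fun j _ => step_pos hp Y (hD j) hl).trans
    (le_of_eq ?_))
  rw [Finset.sum_add_distrib, ← Finset.mul_sum, Finset.sum_range_sub', Finset.sum_const,
    card_range, nsmul_eq_mul]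

end chain

section average

variable {Ω S T U : Type} [Fintype Ω] {p : Ω → ℝ} {α β : ℕ → Type}

/-- Symmetry of the conditional information. -/
theorem info_symm (hp : ∀ ω, 0 ≤ p ω) (X : Ω → S) (Y : Ω → T) (W : Ω → U) :
    CH p X W - CH p X (fun ω => (W ω, Y ω)) = CH p Y W - CH p Y (fun ω => (X ω, W ω)) := by
  have h1 := CH_chain hp X Y W
  have h2 := CH_chain hp Y X W
  have h3 : CH p (fun ω => (X ω, Y ω)) W = CH p (fun ω => (Y ω, X ω)) W := by
    refine CH_congr hp ?_ ?_ (fun _ _ _ _ h => h) (fun _ _ _ _ h => h) <;>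
    · intro ω ω' _ _ h
      simp only [Prod.mk.injEq] at h ⊢
      exact ⟨h.1.2, h.1.1⟩
  have h4 : CH p X (fun ω => (W ω, Y ω)) = CH p X (fun ω => (Y ω, W ω)) := by
    refine CH_congr hp (fun _ _ _ _ h => (Prod.ext_iff.mp h).1)
      (fun _ _ _ _ h => (Prod.ext_iff.mp h).1) ?_ ?_ <;>
    · intro ω ω' _ _ h
      simp only [Prod.mk.injEq] at h ⊢
      exact ⟨h.2, h.1⟩
  rw [h4]
  linarith

omit [Fintype Ω] in
theorem tel (h : ℕ → ℝ) (k : ℕ) : ∀ n : ℕ, ∑ q ∈ range n, (h q - h (q + k)) =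
    ∑ r ∈ range k, (h r - h (n + r)) := by
  intro n
  induction n with
  | zero => simp
  | succ n ih =>
    rw [Finset.sum_range_succ, ih]
    have e1 := Finset.sum_range_succ (fun r => h (n + r)) k
    have e2 := Finset.sum_range_succ' (fun r => h (n + r)) k
    have e3 : ∑ r ∈ range k, h (n + (r + 1)) = ∑ r ∈ range k, h (n + 1 + r) :=
      Finset.sum_congr rfl fun r _ => by rw [show n + (r + 1) = n + 1 + r by omega]
    rw [Finset.sum_sub_distrib, Finset.sum_sub_distrib]
    simp only [add_zero] at e2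
    linarith

/-- QF. The blocks `om q`, `q < N`, of the nested chain share little information with the foreign
variable `Y`. `Z` is coarser and `Λ` finer than the chain. -/
theorem qf_sum (hp : ∀ ω, 0 ≤ p ω) (E : ∀ q, Ω → α q) (om : ∀ q, Ω → β q) (Y : Ω → S) (Z : Ω → T)
    (Λ : Ω → U) (k N : ℕ) (hE : ∀ q < N, Det p (E (q + k)) (fun ω => (om q ω, E q ω)))
    (hZ : ∀ q < k, Det p (E q) Z) (hΛ : ∀ q, N ≤ q → q < N + k → Det p Λ (E q)) :
    ∑ q ∈ range N, (CH p (om q) (E q) - CH p (om q) (fun ω => (E q ω, Y ω))) ≤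
      k * (CH p Y Z - CH p Y Λ) := by
  have h1 : ∀ q ∈ range N, CH p (om q) (E q) - CH p (om q) (fun ω => (E q ω, Y ω)) ≤
      CH p Y (E q) - CH p Y (E (q + k)) := by
    intro q hq
    rw [info_symm hp]
    have := CH_mono_cond hp (X := Y) (hE q (Finset.mem_range.mp hq))
    linarith
  have h2 := tel (fun i => CH p Y (E i)) k N
  refine (Finset.sum_le_sum h1).trans ?_
  rw [h2]
  have h3 : ∀ r ∈ range k, CH p Y (E r) - CH p Y (E (N + r)) ≤ CH p Y Z - CH p Y Λ := by
    intro r hr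
    have hr' := Finset.mem_range.mp hr
    have a1 := CH_mono_cond hp (X := Y) (hZ r hr')
    have a2 := CH_mono_cond hp (X := Y) (hΛ (N + r) (by omega) (by omega))
    linarith
  refine (Finset.sum_le_sum h3).trans (le_of_eq ?_)
  rw [Finset.sum_const, card_range, nsmul_eq_mul]

/-- Subadditivity for a finite family. -/
theorem CH_pi_le (hp : ∀ ω, 0 ≤ p ω) (W : Ω → U) : ∀ (n : ℕ) (Y : Ω → Fin n → S),
    CH p Y W ≤ ∑ i, CH p (fun ω => Y ω i) W := by
  intro n
  induction n with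
  | zero =>
    intro Y
    rw [CH_eq_zero hp (fun ω ω' _ _ _ => funext fun i => i.elim0)]
    simp
  | succ n ih =>
    intro Y
    rw [Fin.sum_univ_castSucc]
    have h1 : CH p Y W ≤ CH p (fun ω => ((fun i : Fin n => Y ω i.castSucc), Y ω (Fin.last n))) W := by
      refine CH_mono_left hp fun ω ω' _ _ h => ?_
      simp only [Prod.mk.injEq] at h
      refine funext fun i => ?_
      refine Fin.lastCases ?_ (fun j => ?_) i
      · exact h.1.2
      · exact congrFun h.1.1 j
    refine h1.trans ((CH_subadd hp _ _ W).trans ?_)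
    exact add_le_add (ih _) le_rfl

/-- Information of a cluster of exact times which are independent given the line `Λ`. -/
theorem copies (hp : ∀ ω, 0 ≤ p ω) (Z : Ω → T) (Λ : Ω → U) {n : ℕ} (Y : Ω → Fin n → S)
    (h : ∑ i, CH p (fun ω => Y ω i) Λ ≤ CH p Y Λ) :
    CH p Y Z - CH p Y Λ ≤ ∑ i, (CH p (fun ω => Y ω i) Z - CH p (fun ω => Y ω i) Λ) := by
  have := CH_pi_le hp Z n Y
  rw [Finset.sum_sub_distrib]
  linarith

end average

section cert

variable {Ω S T U V : Type} [Fintype Ω] {p : Ω → ℝ} {α : ℕ → Type}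

theorem law_congr (hp : ∀ ω, 0 ≤ p ω) {X : Ω → S} {Y : Ω → T} (h1 : Det p X Y) (h2 : Det p Y X)
    {ω : Ω} (hω : 0 < p ω) :
    Pool.Agent.H49.Ent.law p X (X ω) = Pool.Agent.H49.Ent.law p Y (Y ω) :=
  le_antisymm (law_mono_of_det hp h1 hω) (law_mono_of_det hp h2 hω)

/-- Exchange of the two variables. -/
theorem bayes (hp : ∀ ω, 0 ≤ p ω) (X : Ω → S) (Y : Ω → T) (W : Ω → U) {ω : Ω} (hω : 0 < p ω) :
    cp p X (fun o => (W o, Y o)) ω * cp p Y W ω =
      cp p Y (fun o => (W o, X o)) ω * cp p X W ω := by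
  unfold cp
  have e1 : Pool.Agent.H49.Ent.law p (fun o => (X o, (W o, Y o))) (X ω, (W ω, Y ω)) =
      Pool.Agent.H49.Ent.law p (fun o => (Y o, (W o, X o))) (Y ω, (W ω, X ω)) := by
    refine law_congr hp (X := fun o => (X o, (W o, Y o))) (Y := fun o => (Y o, (W o, X o)))
      ?_ ?_ hω <;>
    · intro ω ω' _ _ h
      simp only [Prod.mk.injEq] at h ⊢
      exact ⟨h.2.2, h.2.1, h.1⟩
  have e2 : Pool.Agent.H49.Ent.law p (fun o => (Y o, W o)) (Y ω, W ω) =
      Pool.Agent.H49.Ent.law p (fun o => (W o, Y o)) (W ω, Y ω) := by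
    refine law_congr hp (X := fun o => (Y o, W o)) (Y := fun o => (W o, Y o)) ?_ ?_ hω <;>
    · intro ω ω' _ _ h
      simp only [Prod.mk.injEq] at h ⊢
      exact ⟨h.2, h.1⟩
  have e3 : Pool.Agent.H49.Ent.law p (fun o => (X o, W o)) (X ω, W ω) =
      Pool.Agent.H49.Ent.law p (fun o => (W o, X o)) (W ω, X ω) := by
    refine law_congr hp (X := fun o => (X o, W o)) (Y := fun o => (W o, X o)) ?_ ?_ hω <;>
    · intro ω ω' _ _ h
      simp only [Prod.mk.injEq] at h ⊢
      exact ⟨h.2, h.1⟩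
  rw [e1, e2, e3]
  have p1 := law_pos hp (fun o => (W o, Y o)) hω
  have p2 := law_pos hp (fun o => (W o, X o)) hω
  rw [div_mul_div_cancel₀ p1.ne', div_mul_div_cancel₀ p2.ne']

theorem cp_mono (hp : ∀ ω, 0 ≤ p ω) {X : Ω → S} {X' : Ω → T} {W : Ω → U}
    (h : Det p (fun o => (X' o, W o)) X) {ω : Ω} (hω : 0 < p ω) : cp p X' W ω ≤ cp p X W ω := by
  unfold cp
  refine div_le_div_of_nonneg_right ?_ (law_nonneg hp W _)
  exact law_mono_of_det hp (X := fun o => (X' o, W o)) (Y := fun o => (X o, W o))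
    (fun ω ω' a b hh => Prod.ext (h ω ω' a b hh) (Prod.ext_iff.mp hh).2) hω

/-- The comparison of the two certificates. -/
theorem cert_aux {x1 x0 y2 y0 yB yA yCB yCA cB cA cYB cYA k e E n : ℝ} (h0 : 0 < x0)
    (hy0 : 0 < y0) (hyA : 0 < yA) (hcB : 0 < cB) (hcA : 0 < cA) (he : 0 < e)
    (hE : 0 < E) (hn : 0 ≤ n)
    (b1 : x1 * y0 = y2 * x0) (b2 : cYB * yB = yCB * cB) (b3 : cYA * yA = yCA * cA)
    (h1 : cYB ≤ 1) (hyB : 0 < yB) (i1 : yB ≤ E * yA) (i2 : y2 ≤ e * yCB) (i3 : yCA ≤ e * y0)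
    (i4 : cA ≤ e * cB) (i5 : e⁻¹ ≤ n * k) (i6 : k ≤ cYA) :
    x1 ≤ n * (E * e ^ 4) * x0 := by
  -- the inverse of the last factor
  have j1 : 1 ≤ e * (n * cYA) := by
    have a1 : e⁻¹ ≤ n * cYA := i5.trans (mul_le_mul_of_nonneg_left i6 hn)
    calc (1 : ℝ) = e * e⁻¹ := (mul_inv_cancel₀ he.ne').symm
      _ ≤ e * (n * cYA) := mul_le_mul_of_nonneg_left a1 he.le
  have j2 : yCB * cB ≤ yB := by
    rw [← b2]
    calc cYB * yB ≤ 1 * yB := mul_le_mul_of_nonneg_right h1 hyB.le
      _ = yB := one_mul _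
  -- `yCB ≤ n * E * e ^ 2 * yCA`
  have j3 : yCB ≤ n * E * e ^ 2 * yCA := by
    have a1 : yCB * cB * cA ≤ n * E * e ^ 2 * yCA * cB * cA := by
      calc yCB * cB * cA ≤ yB * cA := mul_le_mul_of_nonneg_right j2 hcA.le
        _ ≤ (E * yA) * cA := mul_le_mul_of_nonneg_right i1 hcA.le
        _ ≤ (E * yA) * (e * cB) := mul_le_mul_of_nonneg_left i4 (by positivity)
        _ = E * e * cB * yA * 1 := by ring
        _ ≤ E * e * cB * yA * (e * (n * cYA)) := mul_le_mul_of_nonneg_left j1 (by positivity)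
        _ = n * E * e ^ 2 * cB * (cYA * yA) := by ring
        _ = n * E * e ^ 2 * yCA * cB * cA := by rw [b3]; ring
    have a2 : (yCB) * (cB * cA) ≤ (n * E * e ^ 2 * yCA) * (cB * cA) := by
      linarith
    exact le_of_mul_le_mul_right a2 (by positivity)
  have j4 : x1 * y0 ≤ n * (E * e ^ 4) * x0 * y0 := by
    rw [b1]
    calc y2 * x0 ≤ (e * yCB) * x0 := mul_le_mul_of_nonneg_right i2 h0.le
      _ ≤ (e * (n * E * e ^ 2 * yCA)) * x0 :=
        mul_le_mul_of_nonneg_right (mul_le_mul_of_nonneg_left j3 he.le) h0.le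
      _ ≤ (e * (n * E * e ^ 2 * (e * y0))) * x0 := by
        refine mul_le_mul_of_nonneg_right (mul_le_mul_of_nonneg_left
          (mul_le_mul_of_nonneg_left i3 (by positivity)) he.le) h0.le
      _ = n * (E * e ^ 4) * x0 * y0 := by ring
  exact le_of_mul_le_mul_right j4 hy0

/-- Transfer of certificates. `φ l q` is the context and `x l q` the block of the certificate of
the kind `l` at `q`; `D` is a nested chain, `c l q` a further part of the context which is not part
of the chain (time cell, plank label, flags) and which has at most `n l` values given `D q` and the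
foreign variable `Y`. For most `q` and outside a small event, the bound of the conditional
probability of the block given the context holds, up to the factor `n l * exp ((K + 4) ε len l)`,
for the context together with `Y`, for all kinds at once. -/
theorem qav_cert (hp : IsLaw p) {ι : Type} (LL : Finset ι) (len n : ι → ℕ) (K : ℕ)
    (D : ∀ q, Ω → α q) (Y : Ω → S) {β γ δ : ι → ℕ → Type} (φ : ∀ l q, Ω → β l q)
    (x : ∀ l q, Ω → γ l q) (c : ∀ l q, Ω → δ l q) (k : ∀ l (_ : ℕ), Ω → Fin (n l))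
    (hD : ∀ q, Det p (D (q + 1)) (D q)) (h0 : ∀ l ∈ LL, 0 < K * len l)
    (h1 : ∀ l ∈ LL, ∀ q, Det p (φ l q) (fun ω => (D q ω, c l q ω)))
    (h2 : ∀ l ∈ LL, ∀ q, Det p (fun ω => (D (q + K * len l) ω, c l q ω))
      (fun ω => (φ l q ω, x l q ω)))
    (h3 : ∀ l ∈ LL, ∀ q, Det p (fun ω => (k l q ω, (D q ω, Y ω))) (c l q))
    (N : ℕ) {ε lam : ℝ} (hε : 0 ≤ ε) (hl : 0 < lam) :
    ε * ∑ q ∈ range N, Pr p {ω | ∃ l ∈ LL, q + K * len l ≤ N ∧
        n l * Real.exp ((K + 4) * (ε * len l)) * cp p (x l q) (φ l q) ω <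
          cp p (x l q) (fun o => (φ l q o, Y o)) ω} ≤
      (1 + 1 / lam) * (CH p Y (D 0) - CH p Y (D N)) + N * (lam / 2) +
        ε * (N * ∑ l ∈ LL, 4 * Real.exp (-(ε * len l))) := by
  have hq : ∀ q ∈ range N, Pr p {ω | ∃ l ∈ LL, q + K * len l ≤ N ∧
      n l * Real.exp ((K + 4) * (ε * len l)) * cp p (x l q) (φ l q) ω <
        cp p (x l q) (fun o => (φ l q o, Y o)) ω} ≤
      Pr p {ω | ∃ L : ℕ, 0 < L ∧ q + L ≤ N ∧
        Real.exp (ε * L) * cp p Y (D q) ω < cp p Y (D (q + L)) ω} +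
      ∑ l ∈ LL, 4 * Real.exp (-(ε * len l)) := by
    intro q _
    set E0 : Set Ω := {ω | ∃ L : ℕ, 0 < L ∧ q + L ≤ N ∧
        Real.exp (ε * L) * cp p Y (D q) ω < cp p Y (D (q + L)) ω} with hE0
    set E1 : ι → Set Ω := fun l => {ω | Real.exp (ε * len l) *
      cp p Y (fun o => (D (q + K * len l) o, c l q o)) ω <
        cp p Y (fun o => (φ l q o, x l q o)) ω} with hE1
    set E2 : ι → Set Ω := fun l => {ω | Real.exp (ε * len l) * cp p Y (φ l q) ω <
      cp p Y (fun o => (D q o, c l q o)) ω} with hE2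
    set E3 : ι → Set Ω := fun l => {ω | Real.exp (ε * len l) *
      cp p (c l q) (D (q + K * len l)) ω < cp p (c l q) (D q) ω} with hE3
    set E4 : ι → Set Ω := fun l => {ω | n l * cp p (k l q) (fun o => (D q o, Y o)) ω <
      Real.exp (-(ε * len l))} with hE4
    have hsub : ∀ ω, 0 < p ω → ω ∈ {ω | ∃ l ∈ LL, q + K * len l ≤ N ∧
        n l * Real.exp ((K + 4) * (ε * len l)) * cp p (x l q) (φ l q) ω <
          cp p (x l q) (fun o => (φ l q o, Y o)) ω} →
        ω ∈ E0 ∪ {ω | ∃ l ∈ LL, ω ∈ (E1 l ∪ E2 l) ∪ (E3 l ∪ E4 l)} := by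
      rintro ω hω ⟨l, hl, hlN, hlt⟩
      by_contra hcon
      simp only [Set.mem_union, not_or] at hcon
      obtain ⟨hc0, hc1⟩ := hcon
      have hc1' : ¬ ∃ l ∈ LL, ω ∈ (E1 l ∪ E2 l) ∪ (E3 l ∪ E4 l) := hc1
      have hc2 : ω ∉ (E1 l ∪ E2 l) ∪ (E3 l ∪ E4 l) := fun h => hc1' ⟨l, hl, h⟩
      simp only [Set.mem_union, not_or] at hc2
      obtain ⟨⟨g1, g2⟩, g3, g4⟩ := hc2
      have g0 : cp p Y (D (q + K * len l)) ω ≤ Real.exp (ε * ((K * len l : ℕ) : ℝ)) *
          cp p Y (D q) ω := by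
        by_contra h
        exact hc0 ⟨K * len l, h0 l hl, hlN, not_le.mp h⟩
      have g1' : cp p Y (fun o => (φ l q o, x l q o)) ω ≤ Real.exp (ε * len l) *
          cp p Y (fun o => (D (q + K * len l) o, c l q o)) ω := by
        by_contra h
        exact g1 (not_le.mp h)
      have g2' : cp p Y (fun o => (D q o, c l q o)) ω ≤ Real.exp (ε * len l) *
          cp p Y (φ l q) ω := by
        by_contra h
        exact g2 (not_le.mp h)
      have g3' : cp p (c l q) (D q) ω ≤ Real.exp (ε * len l) *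
          cp p (c l q) (D (q + K * len l)) ω := by
        by_contra h
        exact g3 (not_le.mp h)
      have g4' : Real.exp (-(ε * len l)) ≤ n l * cp p (k l q) (fun o => (D q o, Y o)) ω := by
        by_contra h
        exact g4 (not_le.mp h)
      rw [Real.exp_neg] at g4'
      have hnn := hp.nonneg
      have key := cert_aux (E := Real.exp (ε * ((K * len l : ℕ) : ℝ))) (n := (n l : ℝ))
        (cp_pos hnn (x l q) (φ l q) hω) (cp_pos hnn Y (φ l q) hω) (cp_pos hnn Y (D q) hω)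
        (cp_pos hnn (c l q) (D (q + K * len l)) hω) (cp_pos hnn (c l q) (D q) hω)
        (Real.exp_pos (ε * len l)) (Real.exp_pos _) (Nat.cast_nonneg _)
        (bayes hnn (x l q) Y (φ l q) hω)
        (bayes hnn (c l q) Y (D (q + K * len l)) hω)
        (bayes hnn (c l q) Y (D q) hω)
        (cp_le_one hnn _ _ hω) (cp_pos hnn Y (D (q + K * len l)) hω) g0 g1' g2' g3' g4'
        (cp_mono hnn (h3 l hl q) hω)
      have e1 : Real.exp (ε * ((K * len l : ℕ) : ℝ)) * Real.exp (ε * len l) ^ 4 =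
          Real.exp ((K + 4) * (ε * len l)) := by
        rw [← Real.exp_nat_mul, ← Real.exp_add]
        congr 1
        push_cast
        ring
      rw [e1] at key
      linarith
    refine (pr_mono hp.nonneg hsub).trans ((pr_union hp.nonneg _ _).trans ?_)
    refine add_le_add le_rfl ((pr_biUnion hp.nonneg LL _).trans (Finset.sum_le_sum fun l hl => ?_))
    have a1 : Pr p (E1 l) ≤ Real.exp (-(ε * len l)) := coarse_fine hp Y (h2 l hl q) _
    have a2 : Pr p (E2 l) ≤ Real.exp (-(ε * len l)) := coarse_fine hp Y (h1 l hl q) _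
    have a3 : Pr p (E3 l) ≤ Real.exp (-(ε * len l)) :=
      coarse_fine hp (c l q) (det_chain hD (Nat.le_add_right q (K * len l))) _
    have a4 : Pr p (E4 l) ≤ Real.exp (-(ε * len l)) := few hp (k l q) _ (Real.exp_pos _)
    have b1 := pr_union hp.nonneg (E1 l ∪ E2 l) (E3 l ∪ E4 l)
    have b2 := pr_union hp.nonneg (E1 l) (E2 l)
    have b3 := pr_union hp.nonneg (E3 l) (E4 l)
    linarith
  have hmain := qav hp D Y hD N hε hl
  have hsum := mul_le_mul_of_nonneg_left (Finset.sum_le_sum hq) hε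
  refine hsum.trans ?_
  rw [Finset.sum_add_distrib, Finset.sum_const, card_range, nsmul_eq_mul, mul_add]
  exact add_le_add hmain le_rfl

end cert

end Pool.H54.QF
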